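import Pool.Agent.R559.Ach654

set_option autoImplicit false

/-!
# A minimal representation of a Cantorval with `x_n < r_{n+1}` for infinitely many `n`

The sequence is `6, 5, 4, 6/8, 5/8, 4/8, 6/64, 5/64, 4/64, …`.  Its subset sums of one block,
`0, 4, 5, 6, 9, 10, 11, 15`, form a complete residue system modulo `8`, so its achievement set has
interior points; `4 > 15/7` gives gaps near `0`, so it is a Cantorval; `6 < 4 + 15/7`; and as
`2 ^ n * r_n` is bounded, deleting infinitely many terms leaves a set of measure `0`.
-/

namespace Pool.Agent.Results.MP_61d686_an.MinimalFast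

/-- The set of all sums of terms of `x` with indices in `I`, that is, the achievement set of the
sequence obtained from `x` by deleting the terms whose index is not in `I`. -/
def subsums (x : ℕ → ℝ) (I : Set ℕ) : Set ℝ :=
  {s | ∃ B : Set ℕ, B ⊆ I ∧ s = ∑' n, B.indicator x n}

/-- A Cantorval: a nonempty compact set which is the closure of its interior and in which both
endpoints of every nondegenerate connected component are accumulation points of the set of points
that form a one-point component. -/
def IsCantorval (E : Set ℝ) : Prop :=
  E.Nonempty ∧ IsCompact E ∧ closure (interior E) = E ∧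
    ∀ p ∈ E, (connectedComponentIn E p).Nontrivial →
      AccPt (sInf (connectedComponentIn E p))
        (Filter.principal {y | y ∈ E ∧ connectedComponentIn E y = {y}}) ∧
      AccPt (sSup (connectedComponentIn E p))
        (Filter.principal {y | y ∈ E ∧ connectedComponentIn E y = {y}})

/-- `x` is a representation of `E`: a nonincreasing sequence of positive reals with finite sum
whose achievement set is `E`. -/
def IsRepresentation (x : ℕ → ℝ) (E : Set ℝ) : Prop :=
  (∀ n, 0 < x n) ∧ Antitone x ∧ Summable x ∧ E = subsums x Set.univ

/-- The representation `x` of `E` is minimal: after deleting any infinite set of terms the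
achievement set is not homeomorphic to `E`. -/
def IsMinimal (x : ℕ → ℝ) (E : Set ℝ) : Prop :=
  ∀ A : Set ℕ, A.Infinite → IsEmpty (subsums x Aᶜ ≃ₜ E)

/-- The tail `r_n`: the sum of the terms after the `n`-th one. -/
noncomputable def tail (x : ℕ → ℝ) (n : ℕ) : ℝ := ∑' k, x (n + 1 + k)

open Pool.Agent.R559 in
theorem result : ∃ (E : Set ℝ) (x : ℕ → ℝ), IsCantorval E ∧ IsRepresentation x E ∧
    IsMinimal x E ∧ {n : ℕ | x n < tail x (n + 1)}.Infinite := by
  have hE : subsums Ach654.x Set.univ = Achieve.E Ach654.x := by
    ext s
    simp [subsums, Achieve.E]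
  have hcomp := Achieve.gE_compact Ach654.x_pos Ach654.x_summable
  refine ⟨Achieve.E Ach654.x, Ach654.x, ⟨?_, hcomp, Ach654.regular, ?_⟩,
    ⟨Ach654.x_pos, Ach654.x_antitone, Ach654.x_summable, hE.symm⟩, ?_, ?_⟩
  · exact ⟨7, Ach654.interval ⟨by norm_num, le_rfl⟩⟩
  · intro p hp hnt
    have h := Achieve.endpoints Ach654.x_pos Ach654.x_summable Ach654.H p hp hnt
    have hcc : IsClosed (connectedComponentIn (Achieve.E Ach654.x) p) := by
      rw [← closure_eq_iff_isClosed]
      apply Set.Subset.antisymm _ subset_closure
      apply isPreconnected_connectedComponentIn.closure.subset_connectedComponentIn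
        (subset_closure (mem_connectedComponentIn hp))
      exact closure_minimal (connectedComponentIn_subset _ _) hcomp.isClosed
    have hne : (connectedComponentIn (Achieve.E Ach654.x) p).Nonempty :=
      ⟨p, mem_connectedComponentIn hp⟩
    have hlow : BddBelow (connectedComponentIn (Achieve.E Ach654.x) p) :=
      hcomp.bddBelow.mono (connectedComponentIn_subset _ _)
    have hup : BddAbove (connectedComponentIn (Achieve.E Ach654.x) p) :=
      hcomp.bddAbove.mono (connectedComponentIn_subset _ _)
    have key : ∀ a ∈ connectedComponentIn (Achieve.E Ach654.x) p,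
        a ∈ closure {y ∈ Achieve.E Ach654.x |
          connectedComponentIn (Achieve.E Ach654.x) y = {y}} →
        AccPt a (Filter.principal {y | y ∈ Achieve.E Ach654.x ∧
          connectedComponentIn (Achieve.E Ach654.x) y = {y}}) := by
      intro a ha hcl
      rw [accPt_principal_iff_clusterPt, ← mem_closure_iff_clusterPt, Set.sdiff_singleton_eq_self]
      · exact hcl
      · rintro ⟨_, h1⟩
        rw [← connectedComponentIn_eq ha] at h1
        obtain ⟨b, hb, hba⟩ := hnt.exists_ne a
        rw [h1] at hb
        exact hba hb
    exact ⟨key _ (hcc.csInf_mem hne hlow) h.1, key _ (hcc.csSup_mem hne hup) h.2⟩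
  · intro A hA
    exact ⟨fun φ => Ach654.no_homeo A hA _ Ach654.interval φ⟩
  · exact Ach654.often

end Pool.Agent.Results.MP_61d686_an.MinimalFast
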